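import Pool.Agent.J6H49.EE.Maps

/-!
# Linear-exponential space in time `2 ^ O(n * β n)`
-/

set_option autoImplicit false

namespace Pool.Agent.J6H49.EE

open Pool.Agent.NPC Pool.Agent.H620R2.Gauge Pool.Agent.H622R2 Pool.Agent.H591R3.PHG Filter
open Pool.Agent.H622R2.Exp.A4 (poly_two_pow)
open Pool.Agent.TH678.GC (join)
open Pool.Agent.TH678.RS (bt)
open Pool.Agent.Y626.WX (Cp cod emb phi_emb code_pspace time_bound qc poly_qc)

/-- the slower function -/
def slow (β : ℕ → ℕ) (m : ℕ) : ℕ := β (Nat.sqrt (Nat.log 2 m))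

theorem slow_mono {β : ℕ → ℕ} (hβ : Monotone β) : Monotone (slow β) := fun _ _ h =>
  hβ (Nat.sqrt_le_sqrt (Nat.log_mono_right h))

theorem slow_tendsto {β : ℕ → ℕ} (hβ' : Tendsto β atTop atTop) :
    Tendsto (slow β) atTop atTop := by
  refine hβ'.comp ?_
  rw [tendsto_atTop]
  intro b
  filter_upwards [eventually_ge_atTop (2 ^ (b * b))] with m hm
  rw [Nat.le_sqrt]
  exact Nat.le_log_of_pow_le (by norm_num) hm

theorem slow_bound {β : ℕ → ℕ} (hβ : Monotone β) (c : ℕ) : ∃ K : ℕ, ∀ n : ℕ,
    slow β (2 ^ (c * (n + 1))) + 1 ≤ K * (β n + 1) := by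
  refine ⟨β (c + 2) + 1, fun n => ?_⟩
  unfold slow
  rw [Nat.log_pow (by norm_num)]
  by_cases h : c + 2 ≤ n
  · have h1 : Nat.sqrt (c * (n + 1)) ≤ n := by
      have h2 : c * (n + 1) ≤ n * n := by nlinarith
      calc Nat.sqrt (c * (n + 1)) ≤ Nat.sqrt (n * n) := Nat.sqrt_le_sqrt h2
        _ = n := Nat.sqrt_eq n
    have h3 := hβ h1
    nlinarith
  · have h1 : Nat.sqrt (c * (n + 1)) ≤ c + 2 := by
      have h2 : c * (n + 1) ≤ (c + 2) * (c + 2) := by nlinarith
      calc Nat.sqrt (c * (n + 1)) ≤ Nat.sqrt ((c + 2) * (c + 2)) := Nat.sqrt_le_sqrt h2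
        _ = c + 2 := Nat.sqrt_eq _
    have h3 := hβ h1
    nlinarith

/-- the padded string, made from a longer padding -/
def repad (c : ℕ) (z : List Bool) : List Bool :=
  pairBits (unpair z).1 (List.replicate (min (2 ^ (c * ((unpair z).1.length + 1))) z.length) true)

theorem poly_repad (c : ℕ) : Poly (repad c) := by
  have h1 : Poly (fun z : List Bool => (unpair z).1) := Poly.fst poly_unpair
  have h2 : UPoly (fun z : List Bool => z.length) := UPoly.length Poly.id
  have h4 : UPoly (fun y : List Bool => c * ((unpair y).1.length + 1)) := by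
    have h := UPoly.eval (UPoly.length h1) (Polynomial.C c * (Polynomial.X + 1))
    simpa using h
  exact poly_pairBits h1 (poly_repl (UPoly.of_le (Poly.min (poly_two_pow h4)
    (Poly.length Poly.id)) h2 fun y => min_le_right _ _))

theorem repad_pair {c m : ℕ} {x : List Bool} (h : 2 ^ (c * (x.length + 1)) ≤ m) :
    repad c (pairBits x (List.replicate m true)) = padE c x := by
  unfold repad padE
  rw [unpair_pairBits]
  show pairBits x (List.replicate (min (2 ^ (c * (x.length + 1))) _) true) = _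
  rw [min_eq_left]
  rw [Pool.Agent.H620R2.Gauge.length_pairBits, List.length_replicate]
  omega

theorem length_padE (c : ℕ) (x : List Bool) : (padE c x).length + 2 ≤
    2 ^ ((c + 2) * (x.length + 1)) := by
  unfold padE
  rw [Pool.Agent.H620R2.Gauge.length_pairBits, List.length_replicate]
  have h1 : x.length + 1 ≤ 2 ^ x.length := Nat.lt_two_pow_self
  have e : (c + 2) * (x.length + 1) = c * (x.length + 1) + (x.length + (x.length + 2)) := by ring
  rw [e, pow_add, pow_add]
  set a := 2 ^ (c * (x.length + 1)) with ha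
  have ha1 : 1 ≤ a := Nat.one_le_two_pow
  set b := 2 ^ x.length with hb
  have e2 : 2 ^ (x.length + 2) = 4 * b := by rw [pow_add]; ring
  rw [e2]
  have hb1 : 1 ≤ b := Nat.one_le_two_pow
  have h2 : b ≤ b * b := Nat.le_mul_of_pos_left _ hb1
  have h3 : 4 * b ≤ b * (4 * b) := by nlinarith
  have h4 : b * (4 * b) ≤ a * (b * (4 * b)) := Nat.le_mul_of_pos_left _ ha1
  have h5 : a ≤ a * (b * b) := Nat.le_mul_of_pos_right _ (by positivity)
  have e3 : a * (b * (4 * b)) = 4 * (a * (b * b)) := by ring
  have h6 : b ≤ a * (b * b) := by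
    calc b ≤ b * b := h2
      _ ≤ a * (b * b) := Nat.le_mul_of_pos_left _ ha1
  rw [e3]
  omega

variable {g : ℕ → SAlg × Polynomial ℕ} {S : ℕ → Polynomial ℕ} {Φ : Oracle → Oracle}
  {β : ℕ → ℕ}

/-- **Linear-exponential space in nearly linear-exponential time.** -/
theorem time_espace (hg : Function.Surjective g) (hβ : Monotone β)
    (hc : Cp g S (bt (slow β)) Φ) (A : Oracle) {L : Set (List Bool)}
    (hL : LinExp (IsPSPACE (join A (cod Φ A))) L) : InExpTime β (join A (cod Φ A)) L := by
  obtain ⟨c, L', hL', hx⟩ := hL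
  have hO := phi_emb hc A
  rw [← hO] at hL' ⊢
  obtain ⟨e, he⟩ := code_pspace hg hc _ hL'
  obtain ⟨C, hC⟩ := time_bound (slow_mono hβ) (S e)
  obtain ⟨K, hK⟩ := slow_bound hβ (c + 2)
  refine ⟨(c + 2) * (C * K) + c, fun z => [Φ (emb A) (qc e (unpair z).2 (repad c z))], ?_,
    fun x => ?_⟩
  · exact _root_.Pool.Agent.TH678.WP.isFP_ask' _ (poly_qc e (Poly.snd poly_unpair)
      (poly_repad c))
  · beta_reduce
    set m := 2 ^ (((c + 2) * (C * K) + c) * (x.length + 1) * (β x.length + 1)) with hm
    have h1 : 2 ^ (c * (x.length + 1)) ≤ m := by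
      rw [hm]
      apply Nat.pow_le_pow_right (by norm_num)
      calc c * (x.length + 1) ≤ ((c + 2) * (C * K) + c) * (x.length + 1) :=
            Nat.mul_le_mul_right _ (Nat.le_add_left _ _)
        _ ≤ ((c + 2) * (C * K) + c) * (x.length + 1) * (β x.length + 1) :=
            Nat.le_mul_of_pos_right _ (by omega)
    rw [repad_pair h1, unpair_pairBits]
    dsimp only
    rw [List.cons.injEq, and_iff_left rfl, hx x]
    refine (he (padE c x) _ ?_).symm
    rw [List.length_replicate]
    refine (hC _).trans ?_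
    have h2 := length_padE c x
    have h3 : slow β (padE c x).length + 1 ≤ K * (β x.length + 1) := by
      refine le_trans ?_ (hK x.length)
      have := slow_mono hβ (show (padE c x).length ≤ 2 ^ ((c + 2) * (x.length + 1)) by omega)
      omega
    calc ((padE c x).length + 2) ^ (C * (slow β (padE c x).length + 1))
        ≤ (2 ^ ((c + 2) * (x.length + 1))) ^ (C * (slow β (padE c x).length + 1)) :=
          Nat.pow_le_pow_left h2 _
      _ ≤ (2 ^ ((c + 2) * (x.length + 1))) ^ (C * (K * (β x.length + 1))) :=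
          Nat.pow_le_pow_right (by positivity) (Nat.mul_le_mul_left _ h3)
      _ = 2 ^ ((c + 2) * (C * K) * (x.length + 1) * (β x.length + 1)) := by
          rw [← pow_mul]
          congr 1
          ring
      _ ≤ m := by
          rw [hm]
          apply Nat.pow_le_pow_right (by norm_num)
          exact Nat.mul_le_mul_right _ (Nat.mul_le_mul_right _ (Nat.le_add_right _ _))

end Pool.Agent.J6H49.EE
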