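import Pool.Agent.J6H49.EE.Time

/-!
# Bi-immune sets at every level of the linear-exponential hierarchy
-/

set_option autoImplicit false

namespace Pool.Agent.J6H49.EE

open Pool.Agent.NPC Pool.Agent.H620R2.Gauge Pool.Agent.H622R2 Pool.Agent.H591R3.PHG Filter
open Pool.Agent.J6H7.RO (randomOracle)
open Pool.Agent.J6H49.BI (tl hardL hardL_sig fair parLen Rt ae_main mem_hardL_of_rt table oracle
  late_coded)
open Pool.Agent.TH678.GC (join)
open Pool.Agent.TH678.RS (bt)
open Pool.Agent.Y626.WX (Cp cod exists_cp)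

/-- **The language.** -/
def hardE (k : ℕ) (A : Oracle) : Set (List Bool) := {x | tl (idx x) ∈ hardL k A}

theorem hardE_sig {B A : Oracle} {pre pre' : List Bool} (hA : ∀ q, B (pre ++ q) = A q)
    (hT : ∀ q, B (pre' ++ q) = table q) (k : ℕ) : LinExp (IsSig B (k + 1)) (hardE k A) := by
  refine ⟨1, {z | toTally z ∈ hardL k A}, isSig_comap (hardL_sig hA hT k) poly_toTally,
    fun x => ?_⟩
  show _ ↔ toTally (padE 1 x) ∈ hardL k A
  rw [toTally_padE le_rfl]
  rfl

theorem biimmuneE_of {k : ℕ} {B A : Oracle}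
    (h : ∀ S : Set (List Bool), IsSig B k S → {N : ℕ | tl N ∈ S}.Infinite → ∀ b : Bool,
      ∃ N, parLen k N ≤ N ∧ tl N ∈ S ∧ A ∈ Rt k N b) (S : Set (List Bool))
    (hS : LinExp (IsSig B k) S) (hinf : S.Infinite) :
    ¬ S ⊆ hardE k A ∧ ¬ S ⊆ (hardE k A)ᶜ := by
  obtain ⟨c, S', hS', hx⟩ := hS
  have hlen : ∀ N, (tl N).length = N := fun N => by unfold tl; simp
  have h1 : ∀ N, tl N ∈ {y | fromTally c y ∈ S'} ↔ str N ∈ S := by
    intro N
    show fromTally c (tl N) ∈ S' ↔ _
    rw [hx]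
    unfold fromTally
    rw [hlen]
  have hinf' : {N : ℕ | tl N ∈ {y | fromTally c y ∈ S'}}.Infinite := by
    intro hfin
    apply hinf
    refine (hfin.image str).subset fun x hxS => ⟨idx x, ?_, str_idx x⟩
    show tl (idx x) ∈ {y | fromTally c y ∈ S'}
    rw [h1, str_idx]
    exact hxS
  have key : ∀ b, ∃ x ∈ S, (x ∈ hardE k A ↔ b = false) := by
    intro b
    obtain ⟨N, h2, h3, h4⟩ := h _ (isSig_comap hS' (poly_fromTally c)) hinf' b
    refine ⟨str N, (h1 N).1 h3, ?_⟩
    show tl (idx (str N)) ∈ hardL k A ↔ _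
    rw [idx_str]
    exact mem_hardL_of_rt h2 (hlen N) h4
  constructor
  · intro hsub
    obtain ⟨x, hx, h1⟩ := key true
    have := h1.1 (hsub hx)
    exact Bool.noConfusion this
  · intro hsub
    obtain ⟨x, hx, h1⟩ := key false
    exact hsub hx (h1.2 rfl)

/-- **The main theorem.** -/
theorem main (β : ℕ → ℕ) (hβ : Monotone β) (hβ' : Tendsto β atTop atTop) :
    ∃ (T : Oracle) (E : Oracle → Oracle),
      (∀ B : Oracle, ∀ L, LinExp (IsPSPACE (join B (E B))) L → InExpTime β (join B (E B)) L) ∧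
      ∀ E₀ : Oracle, ∀ᵐ A ∂(randomOracle fun _ => fair), ∀ k : ℕ, ∃ L : Set (List Bool),
          LinExp (IsSig (join (join (join A E₀) T) (E (join (join A E₀) T))) (k + 1)) L ∧
          ∀ S : Set (List Bool),
            LinExp (IsSig (join (join (join A E₀) T) (E (join (join A E₀) T))) k) S →
              S.Infinite → ¬ S ⊆ L ∧ ¬ S ⊆ Lᶜ := by
  obtain ⟨g, hg⟩ := CC.exists_enum
  obtain ⟨S, Φ, hc⟩ := exists_cp g (bt (slow β))
  refine ⟨table, cod Φ, fun B L hL => time_espace hg hβ hc B hL, fun E₀ => ?_⟩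
  filter_upwards [ae_main (late_coded (slow_mono hβ) (slow_tendsto hβ') hc E₀)] with A hA k
  refine ⟨hardE k A, ?_, biimmuneE_of (hA k)⟩
  exact hardE_sig (pre := [false, false, false]) (pre' := [false, true]) (fun q => rfl)
    (fun q => rfl) k

end Pool.Agent.J6H49.EE
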