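import Pool.Agent.J6H49.BI.Final

/-!
# Linear-exponential classes relative to an oracle, by padding
-/

set_option autoImplicit false

namespace Pool.Agent.J6H49.EE

open Pool.Agent.NPC Pool.Agent.H620R2.Gauge

/-- The string `x`, padded with `2 ^ (c * (|x| + 1))` ones. -/
def padE (c : ℕ) (x : List Bool) : List Bool :=
  pairBits x (List.replicate (2 ^ (c * (x.length + 1))) true)

/-- The linear-exponential version of the class `C`: the language `L` is in this class if for some
constant `c`, membership of `x` in `L` is the same as membership in some language in `C` of the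
string `x`, padded with `2 ^ (c * (|x| + 1))` ones. For `C = P, NP, PSPACE` this is the class of
the problems decided in deterministic time `2 ^ O(n)`, nondeterministic time `2 ^ O(n)`, space
`2 ^ O(n)`. -/
def LinExp (C : Set (List Bool) → Prop) (L : Set (List Bool)) : Prop :=
  ∃ (c : ℕ) (S : Set (List Bool)), C S ∧ ∀ x, x ∈ L ↔ padE c x ∈ S

/-- The language `L` is decided in time `2 ^ O(n * (β n + 1))` relative to `B`: for some constant
`C`, the string `x`, padded with `2 ^ (C * (|x| + 1) * (β |x| + 1))` ones, is decided in
polynomial time. -/
def InExpTime (β : ℕ → ℕ) (B : Oracle) (L : Set (List Bool)) : Prop :=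
  ∃ (C : ℕ) (f : List Bool → List Bool), IsFP B f ∧ ∀ x : List Bool,
    (x ∈ L ↔ f (pairBits x (List.replicate
      (2 ^ (C * (x.length + 1) * (β x.length + 1))) true)) = [true])

end Pool.Agent.J6H49.EE
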