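import Pool.Agent.J6H49.EE.Defs
import Pool.Agent.H622R2.Exp.A4

/-!
# The translation between short strings and tally strings
-/

set_option autoImplicit false

namespace Pool.Agent.J6H49.EE

open Pool.Agent.NPC Pool.Agent.H620R2.Gauge Pool.Agent.H622R2 Pool.Agent.H591R3.PHG
open Pool.Agent.J6H7.RO (isSig_of)
open Pool.Agent.H622R2.Exp.A4 (poly_two_pow)
open Pool.Agent.J6H49.BI (tl hardL)

/-- preimages under functions which are computable in polynomial time -/
theorem isSig_comap {A : Oracle} {k : ℕ} {S : Set (List Bool)} {g : List Bool → List Bool}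
    (hS : IsSig A k S) (hg : Poly g) : IsSig A k {y | g y ∈ S} := by
  obtain ⟨V, p, hV, hL⟩ := hS
  exact isSig_of (UPoly.eval (UPoly.length hg) p) hg hV fun y => hL (g y)

theorem idx_valB (y : List Bool) : idx y = valB (y.reverse ++ [true]) - 1 := by
  rw [idx_eq, ← bits_sval, valB_bits]

theorem poly_idx {α : Type} [TEnc α] {y : α → List Bool} (hy : Poly y) :
    Poly (fun a => idx (y a)) := by
  have h1 : Poly (fun a => valB ((y a).reverse ++ [true])) :=
    Poly.valBits (Poly.append (Poly.reverse hy) (NPC.Poly.const [true]))
  exact (Poly.sub h1 (NPC.Poly.const 1)).congr fun a => (idx_valB (y a)).symm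

theorem poly_str {α : Type} [TEnc α] {n : α → ℕ} (hn : Poly n) : Poly (fun a => str (n a)) :=
  Poly.tail (Poly.reverse (Poly.natBits (Poly.add hn (NPC.Poly.const 1))))

theorem poly_repl {α : Type} [TEnc α] {n : α → ℕ} (hn : UPoly n) :
    Poly (fun a => List.replicate (n a) true) := by
  have h : Poly (fun a => (List.replicate (n a) ()).map (fun _ => true)) :=
    NPC.Poly.map (F := fun _ _ => true) hn (NPC.Poly.const true)
  exact h.congr fun a => by simp

/-- from the padded string to the tally string -/
def toTally (z : List Bool) : List Bool :=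
  List.replicate (min (idx (unpair z).1) z.length) true

theorem poly_toTally : Poly toTally := by
  have h1 : Poly (fun z : List Bool => (unpair z).1) := Poly.fst poly_unpair
  have h2 : UPoly (fun z : List Bool => z.length) := UPoly.length Poly.id
  exact poly_repl (UPoly.of_le (Poly.min (poly_idx h1) (Poly.length Poly.id)) h2
    (fun z => min_le_right _ _))

theorem toTally_padE {c : ℕ} (hc : 1 ≤ c) (x : List Bool) : toTally (padE c x) = tl (idx x) := by
  unfold toTally padE tl
  rw [unpair_pairBits]
  congr 1
  refine min_eq_left ?_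
  rw [Pool.Agent.H620R2.Gauge.length_pairBits, List.length_replicate]
  have h1 := idx_lt x
  have h2 : 2 ^ (x.length + 1) ≤ 2 ^ (c * (x.length + 1)) :=
    Nat.pow_le_pow_right (by norm_num) (Nat.le_mul_of_pos_left _ hc)
  show idx x ≤ _
  omega

/-- from the tally string to the padded string -/
def fromTally (c : ℕ) (y : List Bool) : List Bool := padE c (str y.length)

theorem poly_fromTally (c : ℕ) : Poly (fromTally c) := by
  have h2 : UPoly (fun z : List Bool => z.length) := UPoly.length Poly.id
  have h3 : Poly (fun y : List Bool => str y.length) := poly_str (Poly.length Poly.id)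
  have h4 : UPoly (fun y : List Bool => c * ((str y.length).length + 1)) := by
    have h := UPoly.eval (UPoly.length h3) (Polynomial.C c * (Polynomial.X + 1))
    simpa using h
  have h5 : UPoly (fun y : List Bool => (2 * (y.length + 1)) ^ c) := by
    have h := UPoly.eval h2 ((2 * (Polynomial.X + 1)) ^ c)
    simpa using h
  refine poly_pairBits h3 (poly_repl (UPoly.of_le (poly_two_pow h4) h5 fun y => ?_))
  rw [length_str, mul_comm, pow_mul]
  refine Nat.pow_le_pow_left ?_ c
  rw [pow_succ, mul_comm]
  exact Nat.mul_le_mul_left _ (Nat.pow_log_le_self 2 (by omega))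

end Pool.Agent.J6H49.EE
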